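import Pool.Agent.Helper55.CF.Goals

/-!
# Packet CNT of MP_b612a6_ag: countability of the singular points
-/

noncomputable section
namespace CF55.PkCNT

open CF55

/-- normalised singular points -/
def A (T : Tri) (P : V) (l : V →ₗ[ℂ] ℂ) (i : Fin 6) : Set V :=
  {s | SingPt T P s ∧ l s = 0 ∧ s i = 1}

/-- the augmented linear map -/
def Psi (T : Tri) (s : V) (l : V →ₗ[ℂ] ℂ) (i : Fin 6) : V →ₗ[ℂ] (Fin 6 → ℂ) × ℂ × ℂ :=
  LinearMap.prod (LinearMap.pi fun a => (T s).flip (Pi.single a 1))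
    (LinearMap.prod l (LinearMap.proj i))

theorem Psi_apply (T : Tri) (s : V) (l : V →ₗ[ℂ] ℂ) (i : Fin 6) (δ : V) :
    Psi T s l i δ = (fun a => T s δ (Pi.single a 1), l δ, δ i) := rfl

theorem ker_Psi (T : Tri) (P : V) (hN : Nodal T P) (l : V →ₗ[ℂ] ℂ)
    (hl : l P = 1) (i : Fin 6) (s : V) (hs : s ∈ A T P l i) :
    LinearMap.ker (Psi T s l i) = ⊥ := by
  obtain ⟨hs1, hs2, hs3⟩ := hs
  rw [LinearMap.ker_eq_bot']
  intro δ hδ
  rw [Psi_apply] at hδ
  have h1 : ∀ a, T s δ (Pi.single a 1) = 0 := fun a => congrFun (Prod.ext_iff.mp hδ).1 a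
  have h2 : l δ = 0 := (Prod.ext_iff.mp (Prod.ext_iff.mp hδ).2).1
  have h3 : δ i = 0 := (Prod.ext_iff.mp (Prod.ext_iff.mp hδ).2).2
  have h4 : T s δ = 0 := by
    apply LinearMap.pi_ext'
    intro a
    apply LinearMap.ext_ring
    simpa using h1 a
  have h5 := hN s hs1 δ (fun v' => by rw [h4]; rfl)
  rw [Submodule.mem_span_pair] at h5
  obtain ⟨a, b, hab⟩ := h5
  have ha : a = 0 := by
    have := congrArg l hab
    rw [map_add, map_smul, map_smul, hl, hs2, h2] at this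
    simpa using this
  have hb : b = 0 := by
    have := congrFun hab i
    rw [ha, h3] at this
    simpa [hs3] using this
  rw [← hab, ha, hb]
  simp

theorem quad_small (T : Tri) (K : ℝ) :
    ∃ ε > 0, ∀ δ : V, ‖δ‖ < ε → ∀ a : Fin 6, K * ‖T δ δ (Pi.single a 1)‖ ≤ ‖δ‖ := by
  have hcont : Continuous fun δ : V =>
      |K| * ∑ a : Fin 6, ∑ b : Fin 6, ‖T δ (Pi.single b 1) (Pi.single a 1)‖ := by
    have h1 : ∀ a b : Fin 6, Continuous fun δ : V => T δ (Pi.single b 1) (Pi.single a 1) := by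
      intro a b
      have h : (fun δ : V => T δ (Pi.single b 1) (Pi.single a 1))
          = ((T.flip (Pi.single b 1)).flip (Pi.single a 1) : V →ₗ[ℂ] ℂ) := by
        ext δ; simp [LinearMap.flip_apply]
      rw [h]
      exact LinearMap.continuous_of_finiteDimensional _
    fun_prop
  have h0 := (Metric.continuous_iff.mp hcont) 0 1 one_pos
  obtain ⟨ε, hε, h⟩ := h0
  refine ⟨ε, hε, fun δ hδ a => ?_⟩
  have h2 := h δ (by rwa [dist_zero_right])
  simp only [map_zero, LinearMap.zero_apply, norm_zero, Finset.sum_const_zero, mul_zero,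
    dist_zero_right, Real.norm_eq_abs] at h2
  have h3 : |K| * ∑ a : Fin 6, ∑ b : Fin 6, ‖T δ (Pi.single b 1) (Pi.single a 1)‖ ≤ 1 :=
    (le_abs_self _).trans h2.le
  have h4 : ‖T δ δ (Pi.single a 1)‖ ≤
      (∑ b : Fin 6, ‖T δ (Pi.single b 1) (Pi.single a 1)‖) * ‖δ‖ := by
    have h5 : T δ δ (Pi.single a 1) = ∑ b : Fin 6, δ b * T δ (Pi.single b 1) (Pi.single a 1) := by
      have h6 : δ = ∑ b : Fin 6, δ b • (Pi.single b 1 : V) := by
        ext j
        simp [Pi.single_apply]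
      conv_lhs => rw [h6]
      conv_lhs =>
        rw [map_sum (T (∑ b : Fin 6, δ b • (Pi.single b 1 : V)))]
      rw [← h6, LinearMap.sum_apply]
      simp [smul_eq_mul]
    rw [h5]
    refine (norm_sum_le _ _).trans ?_
    rw [Finset.sum_mul]
    refine Finset.sum_le_sum fun b _ => ?_
    rw [norm_mul, mul_comm]
    exact mul_le_mul_of_nonneg_left (norm_le_pi_norm δ b) (norm_nonneg _)
  have h5 : ∑ b : Fin 6, ‖T δ (Pi.single b 1) (Pi.single a 1)‖ ≤
      ∑ a : Fin 6, ∑ b : Fin 6, ‖T δ (Pi.single b 1) (Pi.single a 1)‖ :=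
    Finset.single_le_sum (f := fun a => ∑ b : Fin 6, ‖T δ (Pi.single b 1) (Pi.single a 1)‖)
      (fun i _ => Finset.sum_nonneg fun j _ => norm_nonneg _) (Finset.mem_univ a)
  calc K * ‖T δ δ (Pi.single a 1)‖ ≤ |K| * ‖T δ δ (Pi.single a 1)‖ :=
        mul_le_mul_of_nonneg_right (le_abs_self K) (norm_nonneg _)
    _ ≤ |K| * ((∑ b : Fin 6, ‖T δ (Pi.single b 1) (Pi.single a 1)‖) * ‖δ‖) :=
        mul_le_mul_of_nonneg_left h4 (abs_nonneg K)
    _ ≤ |K| * ((∑ a : Fin 6, ∑ b : Fin 6, ‖T δ (Pi.single b 1) (Pi.single a 1)‖) * ‖δ‖) :=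
        mul_le_mul_of_nonneg_left (mul_le_mul_of_nonneg_right h5 (norm_nonneg _)) (abs_nonneg K)
    _ = (|K| * ∑ a : Fin 6, ∑ b : Fin 6, ‖T δ (Pi.single b 1) (Pi.single a 1)‖) * ‖δ‖ := by
        ring
    _ ≤ 1 * ‖δ‖ := mul_le_mul_of_nonneg_right h3 (norm_nonneg _)
    _ = ‖δ‖ := one_mul _

theorem isolated (T : Tri) (P : V) (hT : Sym T) (hN : Nodal T P) (l : V →ₗ[ℂ] ℂ)
    (hl : l P = 1) (i : Fin 6) (s : V) (hs : s ∈ A T P l i) :
    ∃ ε > 0, ∀ y ∈ A T P l i, dist y s < ε → y = s := by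
  obtain ⟨K, hK, hA⟩ := LinearMap.exists_antilipschitzWith (Psi T s l i)
    (ker_Psi T P hN l hl i s hs)
  obtain ⟨ε, hε, hq⟩ := quad_small T K
  refine ⟨ε, hε, fun y hy hd => ?_⟩
  have h1 := hA.le_mul_dist y s
  have h2 : dist (Psi T s l i y) (Psi T s l i s) = ‖fun a => T s (y - s) (Pi.single a 1)‖ := by
    rw [dist_eq_norm, ← map_sub, Psi_apply, map_sub l, hy.2.1, hs.2.1]
    rw [Pi.sub_apply, hy.2.2, hs.2.2, sub_self, sub_self]
    rw [Prod.norm_def, Prod.norm_def]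
    simp
  have h3 : ∀ a : Fin 6, 2 * T s (y - s) (Pi.single a 1)
      = - T (y - s) (y - s) (Pi.single a 1) := by
    intro a
    have e1 := hy.1.2 (Pi.single a 1)
    have e2 := hs.1.2 (Pi.single a 1)
    have e3 := hT.s12 y s (Pi.single a 1)
    simp only [map_sub, LinearMap.sub_apply]
    rw [e1, e2, e3]
    ring
  have hK0 : (0 : ℝ) < K := hK
  have h4 : (K : ℝ) * ‖fun a => T s (y - s) (Pi.single a 1)‖ ≤ ‖y - s‖ / 2 := by
    rw [← le_div_iff₀' hK0]
    rw [pi_norm_le_iff_of_nonneg (by positivity)]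
    intro a
    rw [le_div_iff₀' hK0]
    have e1 := hq (y - s) (by rwa [← dist_eq_norm]) a
    have e2 : ‖T (y - s) (y - s) (Pi.single a 1)‖ = 2 * ‖T s (y - s) (Pi.single a 1)‖ := by
      rw [← norm_neg, ← h3 a, norm_mul]
      simp
    rw [e2] at e1
    linarith
  have h5 : ‖y - s‖ ≤ ‖y - s‖ / 2 := by
    rw [h2] at h1
    rw [← dist_eq_norm] at *
    exact h1.trans h4
  have h6 : ‖y - s‖ = 0 := le_antisymm (by linarith [norm_nonneg (y - s)]) (norm_nonneg _)
  exact sub_eq_zero.mp (norm_eq_zero.mp h6)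

theorem countable_A (T : Tri) (P : V) (hT : Sym T) (hN : Nodal T P) (l : V →ₗ[ℂ] ℂ)
    (hl : l P = 1) (i : Fin 6) : (A T P l i).Countable := by
  haveI : DiscreteTopology (A T P l i) := by
    rw [discreteTopology_iff_isOpen_singleton]
    rintro ⟨s, hs⟩
    rw [Metric.isOpen_singleton_iff]
    obtain ⟨ε, hε, h⟩ := isolated T P hT hN l hl i s hs
    exact ⟨ε, hε, fun y hy => Subtype.ext (h y.1 y.2 hy)⟩
  have : Countable (A T P l i) := countable_of_Lindelof_of_discrete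
  exact this

theorem stmtCNT : G_CNT := by
  intro T P hT hP hP0 hN
  obtain ⟨j, hj⟩ : ∃ j, P j ≠ 0 := by
    by_contra h
    push Not at h
    exact hP (funext h)
  set l : V →ₗ[ℂ] ℂ := (P j)⁻¹ • LinearMap.proj j with hldef
  have hl : l P = 1 := by
    simp [hldef, hj]
  refine ⟨⋃ i, A T P l i, Set.countable_iUnion fun i => countable_A T P hT hN l hl i, ?_, ?_⟩
  · intro s hs
    obtain ⟨i, hi⟩ := Set.mem_iUnion.mp hs
    exact hi.1
  · intro s hs
    have hind := LinearIndependent.pair_iff.mp hs.1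
    set s1 := s - l s • P with hs1
    have hne : s1 ≠ 0 := by
      intro h0
      have := (hind (-(l s)) 1 (by rw [← h0, hs1]; simp [sub_eq_add_neg, add_comm])).2
      exact one_ne_zero this
    obtain ⟨i, hi⟩ : ∃ i, s1 i ≠ 0 := by
      by_contra h
      push Not at h
      exact hne (funext h)
    have hT1 : ∀ v, T s1 s1 v = 0 := by
      intro v
      have e1 := hs.2 v
      have e2 : T s P v = 0 := by rw [hT.s12]; exact hP0 s v
      rw [hs1]
      simp only [map_sub, map_smul, LinearMap.sub_apply, LinearMap.smul_apply, e1, e2, hP0]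
      simp
    refine ⟨(s1 i)⁻¹ • s1, Set.mem_iUnion.mpr ⟨i, ⟨⟨?_, ?_⟩, ?_, ?_⟩⟩, s1 i, l s, hi, ?_⟩
    · rw [LinearIndependent.pair_iff]
      intro a b hab
      have h1 : (a - b * (s1 i)⁻¹ * l s) • P + (b * (s1 i)⁻¹) • s = 0 := by
        rw [← hab, hs1]
        module
      obtain ⟨h2, h3⟩ := hind _ _ h1
      have hb : b = 0 := by
        rcases mul_eq_zero.mp h3 with h | h
        · exact h
        · exact absurd h (inv_ne_zero hi)
      rw [hb] at h2
      simp at h2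
      exact ⟨h2, hb⟩
    · intro v
      simp only [map_smul, LinearMap.smul_apply, hT1, smul_zero]
    · rw [map_smul, hs1, map_sub, map_smul, hl]
      simp
    · simp [hi]
    · rw [smul_smul, mul_inv_cancel₀ hi, one_smul, hs1]
      simp

end CF55.PkCNT
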